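import Pool.Agent.H28.MCL.Targets

/-!
# The bound by the functions `yy`
-/

set_option autoImplicit false

open Pool.Agent.H28.MCL Finset Filter

namespace Pool.Agent.H99.MCL

/-- the classes modulo `W` in a class modulo `q` -/
theorem dtq_cls {q W n₀ N H : ℕ} (hW : 0 < W) (hq : q ∣ W) (f : ℕ → ℝ) :
    ∑ c ∈ (Finset.range W).filter (fun c => c ≡ n₀ [MOD q]), ∑ n ∈ iv N H W c, f n =
      ∑ n ∈ iv N H q n₀, f n := by
  have h1 : ∀ n ∈ iv N H q n₀, n % W ∈ (Finset.range W).filter (fun c => c ≡ n₀ [MOD q]) := by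
    intro n hn
    have hn' := (Finset.mem_filter.1 hn).2
    refine Finset.mem_filter.2 ⟨Finset.mem_range.2 (Nat.mod_lt _ hW), ?_⟩
    exact ((Nat.mod_modEq n W).of_dvd hq).trans hn'
  rw [← Finset.sum_fiberwise_of_maps_to h1]
  refine Finset.sum_congr rfl fun c hc => ?_
  have hc1 := Finset.mem_range.1 (Finset.mem_filter.1 hc).1
  have hc2 := (Finset.mem_filter.1 hc).2
  refine Finset.sum_congr ?_ fun _ _ => rfl
  ext n
  simp only [iv, Finset.mem_filter]
  constructor
  · rintro ⟨h3, h4⟩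
    have h5 : n % W = c := by
      have h6 : n % W = c % W := h4
      rw [Nat.mod_eq_of_lt hc1] at h6
      exact h6
    exact ⟨⟨h3, (h4.of_dvd hq).trans hc2⟩, h5⟩
  · rintro ⟨⟨h3, h4⟩, h5⟩
    refine ⟨h3, ?_⟩
    change n % W = c % W
    rw [Nat.mod_eq_of_lt hc1]
    exact h5

theorem dtq_clsf {q W n₀ N H : ℕ} (hW : 0 < W) (hq : q ∣ W) (P : ℕ → Prop) [DecidablePred P]
    (f : ℕ → ℝ) :
    ∑ c ∈ (Finset.range W).filter (fun c => c ≡ n₀ [MOD q]), ∑ n ∈ (iv N H W c).filter P, f n =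
      ∑ n ∈ (iv N H q n₀).filter P, f n := by
  simp only [Finset.sum_filter P]
  exact dtq_cls hW hq fun n => if P n then f n else 0

section

variable {m q W n₀ : ℕ} {τ : Fin m → ℕ} {A : Fin m → Finset ℕ} {g : Fin m → ℕ → ℝ}

/-- the condition on `t` is automatic -/
theorem dtq_bx (hq : q ∣ W) (hA : ∀ l, ∀ a ∈ A l, a ≡ n₀ + τ l [MOD q]) {n : ℕ}
    (hn : n ≡ n₀ [MOD q]) (T : ℕ) (f : (Fin m → ℕ) → ℝ)
    (hf : ∀ t : Fin m → ℕ, ∀ l, (n + t l) % W ∉ A l → f t = 0) :
    ∑ t ∈ bx m T q τ, f t = ∑ t ∈ Fintype.piFinset (fun _ : Fin m => Finset.Icc 1 T), f t := by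
  unfold bx
  refine Finset.sum_subset (Finset.filter_subset _ _) fun t ht ht' => ?_
  have h1 : ¬ ∀ l, t l ≡ τ l [MOD q] := fun h => ht' (Finset.mem_filter.2 ⟨ht, h⟩)
  obtain ⟨l, hl⟩ := not_forall.1 h1
  refine hf t l fun h2 => hl ?_
  have h3 := hA l _ h2
  have h4 : n + t l ≡ n₀ + τ l [MOD q] := ((Nat.mod_modEq (n + t l) W).of_dvd hq).symm.trans h3
  exact hn.add_left_cancel h4

theorem dtq_abs (hg : ∀ l y, |g l y| ≤ 1) (l : Fin m) (y : ℕ) :
    (gc W A g l y) ^ 2 ≤ if y % W ∈ A l then 1 else 0 := by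
  unfold gc
  split_ifs with h
  · have := hg l y
    rw [← sq_abs]
    have h0 := abs_nonneg (g l y)
    nlinarith
  · simp

end

theorem dtq (hq : T_CSQ) (hv : T_VDC) (hc : T_CNT) : T_DTQ := by
  intro m q W n₀ D τ A g w N H T hq0 hW0 hqW hD hA hAq hg hw hHN
  refine (hq m q W n₀ τ A g w N H T hq0 hW0 hqW hA hHN).trans ?_
  have hpp : 0 ≤ pp W A T := by
    unfold pp
    positivity
  refine mul_le_mul_of_nonneg_left ?_ (mul_nonneg (by positivity) hpp)
  have hC : 0 ≤ ((H : ℝ) / W + 1 + D) / (D : ℝ) ^ 2 := by positivity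
  -- van der Corput
  have h1 : ∑ t ∈ bx m T q τ, ∑ c ∈ (Finset.range W).filter (fun c => c ≡ n₀ [MOD q]),
        (∑ n ∈ iv N H W c, w n * ∏ l, gc W A g l (n + t l)) ^ 2 ≤
      ∑ t ∈ bx m T q τ, ∑ c ∈ (Finset.range W).filter (fun c => c ≡ n₀ [MOD q]),
        (((H : ℝ) / W + 1 + D) / (D : ℝ) ^ 2) *
      (D * ∑ n ∈ iv N H W c, (w n * ∏ l, gc W A g l (n + t l)) ^ 2 +
        2 * ∑ j ∈ Finset.Ico 1 D, ((D : ℝ) - j) *
        ∑ n ∈ (iv N H W c).filter (fun n => n + j * W ≤ N),
          (w n * ∏ l, gc W A g l (n + t l)) *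
            (w (n + j * W) * ∏ l, gc W A g l (n + j * W + t l))) :=
    Finset.sum_le_sum fun t _ => Finset.sum_le_sum fun c _ =>
      hv (fun n => w n * ∏ l, gc W A g l (n + t l)) W D N H c hW0 hD hHN
  refine h1.trans ?_
  have h2 : ∑ t ∈ bx m T q τ, ∑ c ∈ (Finset.range W).filter (fun c => c ≡ n₀ [MOD q]),
        (((H : ℝ) / W + 1 + D) / (D : ℝ) ^ 2) *
      (D * ∑ n ∈ iv N H W c, (w n * ∏ l, gc W A g l (n + t l)) ^ 2 +
        2 * ∑ j ∈ Finset.Ico 1 D, ((D : ℝ) - j) *
        ∑ n ∈ (iv N H W c).filter (fun n => n + j * W ≤ N),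
          (w n * ∏ l, gc W A g l (n + t l)) *
            (w (n + j * W) * ∏ l, gc W A g l (n + j * W + t l))) =
      (((H : ℝ) / W + 1 + D) / (D : ℝ) ^ 2) *
      (D * ∑ n ∈ iv N H q n₀, ∑ t ∈ bx m T q τ, (w n * ∏ l, gc W A g l (n + t l)) ^ 2 +
        2 * ∑ j ∈ Finset.Ico 1 D, ((D : ℝ) - j) *
        ∑ n ∈ (iv N H q n₀).filter (fun n => n + j * W ≤ N), ∑ t ∈ bx m T q τ,
          (w n * ∏ l, gc W A g l (n + t l)) *
            (w (n + j * W) * ∏ l, gc W A g l (n + j * W + t l))) := by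
    have e1 : ∀ t ∈ bx m T q τ, ∑ c ∈ (Finset.range W).filter (fun c => c ≡ n₀ [MOD q]),
        (((H : ℝ) / W + 1 + D) / (D : ℝ) ^ 2) *
      (D * ∑ n ∈ iv N H W c, (w n * ∏ l, gc W A g l (n + t l)) ^ 2 +
        2 * ∑ j ∈ Finset.Ico 1 D, ((D : ℝ) - j) *
        ∑ n ∈ (iv N H W c).filter (fun n => n + j * W ≤ N),
          (w n * ∏ l, gc W A g l (n + t l)) *
            (w (n + j * W) * ∏ l, gc W A g l (n + j * W + t l))) =
        (((H : ℝ) / W + 1 + D) / (D : ℝ) ^ 2) *
      (D * ∑ n ∈ iv N H q n₀, (w n * ∏ l, gc W A g l (n + t l)) ^ 2 +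
        2 * ∑ j ∈ Finset.Ico 1 D, ((D : ℝ) - j) *
        ∑ n ∈ (iv N H q n₀).filter (fun n => n + j * W ≤ N),
          (w n * ∏ l, gc W A g l (n + t l)) *
            (w (n + j * W) * ∏ l, gc W A g l (n + j * W + t l))) := by
      intro t _
      rw [← Finset.mul_sum, Finset.sum_add_distrib, ← Finset.mul_sum, ← Finset.mul_sum,
        dtq_cls hW0 hqW, Finset.sum_comm]
      congr 3
      refine Finset.sum_congr rfl fun j _ => ?_
      rw [← Finset.mul_sum, dtq_clsf hW0 hqW]
    rw [Finset.sum_congr rfl e1, ← Finset.mul_sum, Finset.sum_add_distrib, ← Finset.mul_sum,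
      ← Finset.mul_sum, Finset.sum_comm]
    congr 3
    rw [Finset.sum_comm]
    refine Finset.sum_congr rfl fun j _ => ?_
    rw [← Finset.mul_sum, Finset.sum_comm]
  rw [h2]
  refine mul_le_mul_of_nonneg_left (add_le_add ?_ ?_) hC
  · -- the squares
    refine mul_le_mul_of_nonneg_left ?_ (Nat.cast_nonneg D)
    have h3 : ∀ n ∈ iv N H q n₀, ∑ t ∈ bx m T q τ, (w n * ∏ l, gc W A g l (n + t l)) ^ 2 ≤
        pp W A T := by
      intro n _
      have h4 : ∑ t ∈ bx m T q τ, (w n * ∏ l, gc W A g l (n + t l)) ^ 2 ≤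
          ∑ t ∈ bx m T q τ, ∏ l, (if (n + t l) % W ∈ A l then (1 : ℝ) else 0) := by
        refine Finset.sum_le_sum fun t _ => ?_
        rw [mul_pow, ← Finset.prod_pow]
        have h5 : w n ^ 2 ≤ 1 := by
          rw [← sq_abs]
          have := hw n
          have h0 := abs_nonneg (w n)
          nlinarith
        have h6 : ∏ l, gc W A g l (n + t l) ^ 2 ≤
            ∏ l, (if (n + t l) % W ∈ A l then (1 : ℝ) else 0) :=
          Finset.prod_le_prod (fun l _ => sq_nonneg _) fun l _ => dtq_abs hg l _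
        have h7 : 0 ≤ ∏ l, gc W A g l (n + t l) ^ 2 :=
          Finset.prod_nonneg fun l _ => sq_nonneg _
        nlinarith [sq_nonneg (w n)]
      refine h4.trans ?_
      have h5 : ∑ t ∈ bx m T q τ, ∏ l, (if (n + t l) % W ∈ A l then (1 : ℝ) else 0) ≤
          ∑ t ∈ Fintype.piFinset (fun _ : Fin m => Finset.Icc 1 T),
            ∏ l, (if (n + t l) % W ∈ A l then (1 : ℝ) else 0) := by
        refine Finset.sum_le_sum_of_subset_of_nonneg (Finset.filter_subset _ _) fun t _ _ => ?_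
        refine Finset.prod_nonneg fun l _ => ?_
        split_ifs <;> norm_num
      refine h5.trans ?_
      rw [← Finset.prod_univ_sum (fun _ : Fin m => Finset.Icc 1 T)
        (fun l t => if (n + t) % W ∈ A l then (1 : ℝ) else 0)]
      unfold pp
      refine Finset.prod_le_prod (fun l _ => ?_) fun l _ => ?_
      · refine Finset.sum_nonneg fun t _ => ?_
        split_ifs <;> norm_num
      · have h6 := (hc W n T (A l) hW0 (hA l)).1
        rw [Finset.card_filter] at h6
        push_cast at h6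
        exact h6
    have h4 := Finset.sum_le_sum h3
    rw [Finset.sum_const, nsmul_eq_mul] at h4
    refine h4.trans (mul_le_mul_of_nonneg_right ?_ hpp)
    exact ((hc q 0 H ∅ hq0 (Finset.empty_subset _)).2.2 N n₀ hHN).1
  · -- the products
    refine mul_le_mul_of_nonneg_left (Finset.sum_le_sum fun j hj => ?_) (by norm_num)
    have hj' : (0 : ℝ) ≤ (D : ℝ) - j := by
      have : (j : ℝ) ≤ D := by exact_mod_cast (Finset.mem_Ico.1 hj).2.le
      linarith
    refine mul_le_mul_of_nonneg_left ?_ hj'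
    have hyy : ∀ n, 0 ≤ ∏ l, yy W A g T l j n := fun n =>
      Finset.prod_nonneg fun l _ => abs_nonneg _
    have h3 : ∀ n ∈ (iv N H q n₀).filter (fun n => n + j * W ≤ N), ∑ t ∈ bx m T q τ,
          (w n * ∏ l, gc W A g l (n + t l)) *
            (w (n + j * W) * ∏ l, gc W A g l (n + j * W + t l)) ≤
        ∏ l, yy W A g T l j n := by
      intro n hn
      have hn' : n ≡ n₀ [MOD q] := (Finset.mem_filter.1 (Finset.mem_filter.1 hn).1).2
      have h4 : ∑ t ∈ bx m T q τ, (w n * ∏ l, gc W A g l (n + t l)) *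
            (w (n + j * W) * ∏ l, gc W A g l (n + j * W + t l)) =
          (w n * w (n + j * W)) * ∑ t ∈ bx m T q τ,
            ∏ l, (gc W A g l (n + t l) * gc W A g l (n + j * W + t l)) := by
        rw [Finset.mul_sum]
        refine Finset.sum_congr rfl fun t _ => ?_
        rw [Finset.prod_mul_distrib]
        ring
      have h5 : ∑ t ∈ bx m T q τ,
            ∏ l, (gc W A g l (n + t l) * gc W A g l (n + j * W + t l)) =
          ∑ t ∈ Fintype.piFinset (fun _ : Fin m => Finset.Icc 1 T),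
            ∏ l, (gc W A g l (n + t l) * gc W A g l (n + j * W + t l)) := by
        refine dtq_bx hqW hAq hn' T _ fun t l hl => ?_
        refine Finset.prod_eq_zero (Finset.mem_univ l) ?_
        have : gc W A g l (n + t l) = 0 := if_neg hl
        rw [this, zero_mul]
      have h6 : ∀ l : Fin m, ∑ t ∈ Finset.Icc 1 T,
            (gc W A g l (n + t) * gc W A g l (n + j * W + t)) =
          ∑ t ∈ (Finset.Icc 1 T).filter (fun t => (n + t) % W ∈ A l),
            g l (n + t) * g l (n + t + j * W) := by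
        intro l
        rw [Finset.sum_filter]
        refine Finset.sum_congr rfl fun t _ => ?_
        have e1 : n + j * W + t = n + t + j * W := by ring
        rw [e1]
        unfold gc
        rw [Nat.add_mul_mod_self_right]
        split_ifs <;> simp
      rw [h4, h5, ← Finset.prod_univ_sum (fun _ : Fin m => Finset.Icc 1 T)
        (fun l t => gc W A g l (n + t) * gc W A g l (n + j * W + t))]
      have h7 : ∏ l, yy W A g T l j n = |∏ l, ∑ t ∈ Finset.Icc 1 T,
            (gc W A g l (n + t) * gc W A g l (n + j * W + t))| := by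
        rw [Finset.abs_prod]
        refine Finset.prod_congr rfl fun l _ => ?_
        rw [h6 l]
        rfl
      rw [h7]
      refine (le_abs_self _).trans ?_
      rw [abs_mul, abs_mul]
      have h8 : |w n| * |w (n + j * W)| ≤ 1 := by
        have := mul_le_mul (hw n) (hw (n + j * W)) (abs_nonneg _) zero_le_one
        linarith
      exact mul_le_of_le_one_left (abs_nonneg _) h8
    refine (Finset.sum_le_sum h3).trans ?_
    exact Finset.sum_le_sum_of_subset_of_nonneg (Finset.filter_subset _ _) fun n _ _ => hyy n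

end Pool.Agent.H99.MCL
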