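import Pool.Agent.H28.MCL.Targets

/-!
# A product with one factor that is not one
-/

set_option autoImplicit false

open Pool.Agent.H28.MCL Finset Filter

namespace Pool.Agent.H99.MCL

theorem prb_pow {ζ : ℝ} (hζ : 0 ≤ ζ) (n : ℕ) : (n : ℝ) * ζ ≤ 1 / 2 →
    (1 + ζ) ^ n ≤ 1 + 2 * n * ζ := by
  induction n with
  | zero =>
    intro _
    simp
  | succ n ih =>
    intro h
    push_cast at h ⊢
    have h1 := ih (by nlinarith)
    have h2 : (1 + ζ) ^ n * (1 + ζ) ≤ (1 + 2 * n * ζ) * (1 + ζ) :=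
      mul_le_mul_of_nonneg_right h1 (by linarith)
    have h3 : (n : ℝ) * ζ * ζ ≤ 1 / 2 * ζ := mul_le_mul_of_nonneg_right (by nlinarith) hζ
    rw [pow_succ]
    nlinarith

theorem prb : T_PRB := by
  intro m κ ζ v l hκ hκ1 hζ hm hv
  have hm1 : 1 ≤ m := Nat.one_le_iff_ne_zero.2 (by
    rintro rfl
    exact l.elim0)
  obtain ⟨n, rfl⟩ : ∃ n, m = n + 1 := ⟨m - 1, by omega⟩
  have hf : ∀ i, 0 ≤ 1 - κ * (1 - v i) + ζ ∧ 1 - κ * (1 - v i) + ζ ≤ 1 + ζ := by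
    intro i
    have h1 : 0 ≤ κ * (1 - v i) := mul_nonneg hκ.le (by linarith [(hv i).2])
    have h2 : κ * (1 - v i) ≤ 1 * 1 :=
      mul_le_mul hκ1 (by linarith [(hv i).1]) (by linarith [(hv i).2]) zero_le_one
    constructor <;> linarith
  have h1 : ∏ i, (1 - κ * (1 - v i) + ζ) ≤ (1 - κ * (1 - v l) + ζ) * (1 + ζ) ^ n := by
    rw [← Finset.mul_prod_erase Finset.univ _ (Finset.mem_univ l)]
    refine mul_le_mul_of_nonneg_left ?_ (hf l).1
    have h2 : ∏ i ∈ Finset.univ.erase l, (1 - κ * (1 - v i) + ζ) ≤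
        ∏ i ∈ Finset.univ.erase l, (1 + ζ) :=
      Finset.prod_le_prod (fun i _ => (hf i).1) fun i _ => (hf i).2
    rw [Finset.prod_const, Finset.card_erase_of_mem (Finset.mem_univ l), Finset.card_univ,
      Fintype.card_fin] at h2
    exact h2
  push_cast at hm ⊢
  have hn : (n : ℝ) * ζ ≤ 1 / 2 := by nlinarith
  have hn0 : 0 ≤ (n : ℝ) * ζ := mul_nonneg (Nat.cast_nonneg n) hζ
  have h2 := prb_pow hζ n hn
  have h3 : (1 - κ * (1 - v l) + ζ) * (1 + ζ) ^ n ≤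
      (1 - κ * (1 - v l) + ζ) * (1 + 2 * n * ζ) := mul_le_mul_of_nonneg_left h2 (hf l).1
  have h4 : (1 - κ * (1 - v l) + ζ) * (2 * (n * ζ)) ≤ (1 + ζ) * (2 * (n * ζ)) :=
    mul_le_mul_of_nonneg_right (hf l).2 (by linarith)
  have h5 : ζ * (n * ζ) ≤ ζ * (1 / 2) := mul_le_mul_of_nonneg_left hn hζ
  nlinarith

end Pool.Agent.H99.MCL
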